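import Pool.Agent.Helper10.P13.M_Pj
import Pool.Agent.Helper84.P13.D1

/-!
# Project P13: the projectors, without hypotheses
-/

set_option autoImplicit false

namespace Pool.Agent.Helper10.P13

theorem pj13 : S13Pj := hPj Pool.Agent.Helper84.P13.trm Pool.Agent.Helper84.P13.low0 Pool.Agent.Helper84.P13.nfa Pool.Agent.Helper84.P13.nf Pool.Agent.Helper84.P13.bb

end Pool.Agent.Helper10.P13
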