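import Pool.Agent.Helper10.P13.M_Ldg
import Pool.Agent.Helper10.P13.Pj

/-!
# Project P13: the leading form of one list, without hypotheses
-/

set_option autoImplicit false

namespace Pool.Agent.Helper10.P13

theorem ldg13 : S13Ldg := hLdg Pool.Agent.Helper84.P13.low0 Pool.Agent.Helper84.P13.nfa Pool.Agent.Helper84.P13.exp13 pj13

end Pool.Agent.Helper10.P13
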