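import Pool.Agent.Helper10.P13.StLdg

/-!
# Project P13, module Ldg: leading form of one list
-/

set_option autoImplicit false

namespace Pool.Agent.Helper10.P13

open Pool.Agent.Helper84.P13

section smul

variable {q q' : ℕ}

private theorem lg_mul_smul (a b : ZMod 13) (X : Module.End (ZMod 13) (Fn13 q q')) :
    (a * b) • X = a • b • X := by
  refine LinearMap.ext fun F => ?_
  funext x y
  change (a * b) * X F x y = a * (b * X F x y)
  ring

private theorem lg_smul_sub (a : ZMod 13) (X Y : Module.End (ZMod 13) (Fn13 q q')) :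
    a • (X - Y) = a • X - a • Y := by
  refine LinearMap.ext fun F => ?_
  funext x y
  change a * (X F x y - Y F x y) = a * X F x y - a * Y F x y
  ring

private theorem lg_smul_zero (a : ZMod 13) : a • (0 : Module.End (ZMod 13) (Fn13 q q')) = 0 := by
  refine LinearMap.ext fun F => ?_
  funext x y
  change a * 0 = 0
  ring

private theorem lg_zero_smul (X : Module.End (ZMod 13) (Fn13 q q')) : (0 : ZMod 13) • X = 0 := by
  refine LinearMap.ext fun F => ?_
  funext x y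
  change 0 * X F x y = 0
  ring

private theorem lg_add_smul (a b : ZMod 13) (X : Module.End (ZMod 13) (Fn13 q q')) :
    (a + b) • X = a • X + b • X := by
  refine LinearMap.ext fun F => ?_
  funext x y
  change (a + b) * X F x y = a * X F x y + b * X F x y
  ring

private theorem lg_sum_smul {ι : Type} (S : Finset ι) (a : ι → ZMod 13)
    (X : Module.End (ZMod 13) (Fn13 q q')) : (∑ i ∈ S, a i) • X = ∑ i ∈ S, a i • X := by
  classical
  induction S using Finset.induction_on with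
  | empty => simp only [Finset.sum_empty]; exact lg_zero_smul X
  | insert i S hi ih => rw [Finset.sum_insert hi, Finset.sum_insert hi, lg_add_smul, ih]

private theorem lg_smul_mul (a : ZMod 13) (X Y : Module.End (ZMod 13) (Fn13 q q')) :
    (a • X) * Y = a • (X * Y) := LinearMap.ext fun _ => rfl

private theorem lg_mul_smul_comm (a : ZMod 13) (X Y : Module.End (ZMod 13) (Fn13 q q')) :
    X * (a • Y) = a • (X * Y) := by
  refine LinearMap.ext fun F => ?_
  exact X.map_smul a (Y F)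

end smul

section ops

variable {r s : ℕ}

private theorem lg_lw_zero (k : ℤ) : Lw (0 : Module.End (ZMod 13) (Fn13 (13 ^ r) (13 ^ s))) k := by
  intro d F _
  rw [LinearMap.zero_apply]
  exact Submodule.zero_mem _

private theorem lg_lw_pow (hLow0 : S13Low0) (O : Module.End (ZMod 13) (Fn13 (13 ^ r) (13 ^ s))) (k : ℕ)
    (h : Lw O k) (n : ℕ) : Lw (O ^ n) ((k * n : ℕ) : ℤ) := by
  obtain ⟨l1, l2, l3, l4, l5, l6, l7, l8, _⟩ := hLow0 r s
  induction n with
  | zero => simpa using l6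
  | succ n ih =>
    rw [pow_succ]
    have := l1 _ _ _ _ ih h
    have e : ((k * n : ℕ) : ℤ) + k = ((k * (n + 1) : ℕ) : ℤ) := by push_cast; ring
    rw [e] at this
    exact this

private theorem lg_lw_sum (hLow0 : S13Low0) {ι : Type} (S : Finset ι)
    (O : ι → Module.End (ZMod 13) (Fn13 (13 ^ r) (13 ^ s))) (k : ℤ) (h : ∀ i ∈ S, Lw (O i) k) :
    Lw (∑ i ∈ S, O i) k := by
  classical
  obtain ⟨l1, l2, _⟩ := hLow0 r s
  induction S using Finset.induction_on with
  | empty => simpa using lg_lw_zero k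
  | insert a S ha ih =>
    rw [Finset.sum_insert ha]
    exact l2 _ _ _ (h a (Finset.mem_insert_self _ _)) (ih fun i hi => h i (Finset.mem_insert_of_mem hi))

/-- the monomials without the torus part -/
private def lgm (t : ℕ × ℕ × ℕ) : Module.End (ZMod 13) (Fn13 (13 ^ r) (13 ^ s)) :=
  (oB - 1) ^ t.1 * (oD - 1) ^ t.2.1 * (oA - 1) ^ t.2.2

private theorem lg_mon (w : Fin 12) (t : ℕ × ℕ × ℕ) :
    (oW w * (oB - 1) ^ t.1 * (oD - 1) ^ t.2.1 * (oA - 1) ^ t.2.2 :
      Module.End (ZMod 13) (Fn13 (13 ^ r) (13 ^ s))) = oW w * lgm t := by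
  unfold lgm
  simp only [mul_assoc]

private theorem lg_lw_lgm (hLow0 : S13Low0) (hNfa : S13Nfa) (t : ℕ × ℕ × ℕ) :
    Lw (lgm t : Module.End (ZMod 13) (Fn13 (13 ^ r) (13 ^ s))) ((t.1 + 12 * t.2.1 + t.2.2 : ℕ) : ℤ) := by
  obtain ⟨l1, l2, l3, l4, l5, l6, l7, l8, _⟩ := hLow0 r s
  obtain ⟨n1, n2, n3, n4, n5, n6, n7, n8, n9, n10⟩ := hNfa r s
  have h0 := lg_lw_pow hLow0 (oB - 1 : Module.End (ZMod 13) (Fn13 (13 ^ r) (13 ^ s))) 1
    (by exact_mod_cast n10) t.1
  have h1 := lg_lw_pow hLow0 (oD - 1 : Module.End (ZMod 13) (Fn13 (13 ^ r) (13 ^ s))) 12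
    (by exact_mod_cast n6) t.2.1
  have h2 := lg_lw_pow hLow0 (oA - 1 : Module.End (ZMod 13) (Fn13 (13 ^ r) (13 ^ s))) 1
    (by exact_mod_cast n9) t.2.2
  have h := l1 _ _ _ _ (l1 _ _ _ _ h0 h1) h2
  have e : ((1 * t.1 : ℕ) : ℤ) + ((12 * t.2.1 : ℕ) : ℤ) + ((1 * t.2.2 : ℕ) : ℤ)
      = ((t.1 + 12 * t.2.1 + t.2.2 : ℕ) : ℤ) := by push_cast; ring
  rw [e] at h
  exact h

private theorem lg_pow (hLow0 : S13Low0) (O P : Module.End (ZMod 13) (Fn13 (13 ^ r) (13 ^ s)))
    (hO : Lw O 1) (hP : Lw P 1) (h : Lw (O - P) 2) (n : ℕ) : Lw (O ^ n - P ^ n) ((n : ℤ) + 1) := by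
  obtain ⟨l1, l2, l3, l4, _⟩ := hLow0 r s
  induction n with
  | zero =>
    rw [pow_zero, pow_zero, sub_self]
    exact lg_lw_zero _
  | succ n ih =>
    have e : O ^ (n + 1) - P ^ (n + 1) = O ^ n * (O - P) + (O ^ n - P ^ n) * P := by
      rw [pow_succ, pow_succ, mul_sub, sub_mul]
      abel
    rw [e]
    have a1 := l1 _ _ _ _ (lg_lw_pow hLow0 O 1 (by exact_mod_cast hO) n) h
    have a2 := l1 _ _ _ _ ih hP
    have e1 : ((1 * n : ℕ) : ℤ) + 2 = ((n + 1 : ℕ) : ℤ) + 1 := by push_cast; ring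
    have e2 : (n : ℤ) + 1 + 1 = ((n + 1 : ℕ) : ℤ) + 1 := by push_cast; ring
    rw [e1] at a1
    rw [e2] at a2
    exact l2 _ _ _ a1 a2

private theorem lg_pjY (hLow0 : S13Low0) (hPj : S13Pj) (c i : ℕ) :
    Lw ((pj c * dY ^ i : Module.End (ZMod 13) (Fn13 (13 ^ r) (13 ^ s))) - dY ^ i * pj (c + 11 * i))
      ((i : ℤ) + 1) := by
  obtain ⟨l1, l2, l3, l4, l5, l6, l7, l8, _⟩ := hLow0 r s
  obtain ⟨p1, p2, p3, p4, p5, p6, p7, p8⟩ := hPj r s
  induction i with
  | zero =>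
    have e : (pj c * dY ^ 0 : Module.End (ZMod 13) (Fn13 (13 ^ r) (13 ^ s))) - dY ^ 0 * pj (c + 11 * 0) = 0 := by
      rw [pow_zero, mul_one, one_mul, mul_zero, add_zero, sub_self]
    rw [e]
    exact lg_lw_zero _
  | succ i ih =>
    have e : (pj c * dY ^ (i + 1) : Module.End (ZMod 13) (Fn13 (13 ^ r) (13 ^ s))) -
        dY ^ (i + 1) * pj (c + 11 * (i + 1)) =
        (pj c * dY ^ i - dY ^ i * pj (c + 11 * i)) * dY +
          dY ^ i * (pj (c + 11 * i) * dY - dY * pj (c + 11 * i + 11)) := by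
      have e1 : c + 11 * (i + 1) = c + 11 * i + 11 := by ring
      rw [e1, pow_succ, sub_mul, mul_sub]
      simp only [mul_assoc]
      abel
    rw [e]
    have a1 := l1 _ _ _ _ ih l8
    have a2 := l1 _ _ _ _ (lg_lw_pow hLow0 (dY : Module.End (ZMod 13) (Fn13 (13 ^ r) (13 ^ s))) 1
      (by exact_mod_cast l8) i) (p6 (c + 11 * i)).2
    have e1 : ((1 * i : ℕ) : ℤ) + 2 = ((i + 1 : ℕ) : ℤ) + 1 := by push_cast; ring
    have e2 : (i : ℤ) + 1 + 1 = ((i + 1 : ℕ) : ℤ) + 1 := by push_cast; ring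
    rw [e2] at a1
    rw [e1] at a2
    exact l2 _ _ _ a1 a2

private theorem lg_pjX (hLow0 : S13Low0) (hPj : S13Pj) (c j : ℕ) :
    Lw ((pj c * dX ^ j : Module.End (ZMod 13) (Fn13 (13 ^ r) (13 ^ s))) - dX ^ j * pj (c + j))
      ((j : ℤ) + 1) := by
  obtain ⟨l1, l2, l3, l4, l5, l6, l7, l8, _⟩ := hLow0 r s
  obtain ⟨p1, p2, p3, p4, p5, p6, p7, p8⟩ := hPj r s
  induction j with
  | zero =>
    have e : (pj c * dX ^ 0 : Module.End (ZMod 13) (Fn13 (13 ^ r) (13 ^ s))) - dX ^ 0 * pj (c + 0) = 0 := by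
      rw [pow_zero, mul_one, one_mul, add_zero, sub_self]
    rw [e]
    exact lg_lw_zero _
  | succ j ih =>
    have e : (pj c * dX ^ (j + 1) : Module.End (ZMod 13) (Fn13 (13 ^ r) (13 ^ s))) -
        dX ^ (j + 1) * pj (c + (j + 1)) =
        (pj c * dX ^ j - dX ^ j * pj (c + j)) * dX +
          dX ^ j * (pj (c + j) * dX - dX * pj (c + j + 1)) := by
      have e1 : c + (j + 1) = c + j + 1 := by ring
      rw [e1, pow_succ, sub_mul, mul_sub]
      simp only [mul_assoc]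
      abel
    rw [e]
    have a1 := l1 _ _ _ _ ih l7
    have a2 := l1 _ _ _ _ (lg_lw_pow hLow0 (dX : Module.End (ZMod 13) (Fn13 (13 ^ r) (13 ^ s))) 1
      (by exact_mod_cast l7) j) (p6 (c + j)).1
    have e1 : ((1 * j : ℕ) : ℤ) + 2 = ((j + 1 : ℕ) : ℤ) + 1 := by push_cast; ring
    have e2 : (j : ℤ) + 1 + 1 = ((j + 1 : ℕ) : ℤ) + 1 := by push_cast; ring
    rw [e2] at a1
    rw [e1] at a2
    exact l2 _ _ _ a1 a2

/-- the monomials of top weight -/
private theorem lg_top (hLow0 : S13Low0) (hNfa : S13Nfa) (hPj : S13Pj) (c i j : ℕ) :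
    Lw ((pj c * lgm (i, 0, j) : Module.End (ZMod 13) (Fn13 (13 ^ r) (13 ^ s))) -
      dX ^ j * dY ^ i * pj (c + j + 11 * i)) (((i + j : ℕ) : ℤ) + 1) := by
  have hp := hPj r s
  have hl := hLow0 r s
  obtain ⟨l1, l2, l3, l4, l5, l6, l7, l8, lc, _⟩ := hl
  obtain ⟨n1, n2, n3, n4, n5, n6, n7, n8, n9, n10⟩ := hNfa r s
  obtain ⟨p1, p2, p3, p4, p5, p6, p7, p8⟩ := hp
  have hA := lg_lw_pow hLow0 (oA - 1 : Module.End (ZMod 13) (Fn13 (13 ^ r) (13 ^ s))) 1
    (by exact_mod_cast n9) j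
  have hB := lg_lw_pow hLow0 (oB - 1 : Module.End (ZMod 13) (Fn13 (13 ^ r) (13 ^ s))) 1
    (by exact_mod_cast n10) i
  have hX := lg_lw_pow hLow0 (dX : Module.End (ZMod 13) (Fn13 (13 ^ r) (13 ^ s))) 1
    (by exact_mod_cast l7) j
  have hY := lg_lw_pow hLow0 (dY : Module.End (ZMod 13) (Fn13 (13 ^ r) (13 ^ s))) 1
    (by exact_mod_cast l8) i
  have pA := lg_pow hLow0 _ _ n9 l7 (l4 _ _ 2 (by norm_num) n7) j
  have pB := lg_pow hLow0 _ _ n10 l8 (l4 _ _ 2 (by norm_num) n8) i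
  have qY := lg_pjY (r := r) (s := s) hLow0 hPj c i
  have qX := lg_pjX (r := r) (s := s) hLow0 hPj (c + 11 * i) j
  have a1 := l1 _ _ _ _ (p1 c) (l1 _ _ _ _ hB pA)
  have a2 := l1 _ _ _ _ (p1 c) (l1 _ _ _ _ pB hX)
  have a3 := l1 _ _ _ _ qY hX
  have a4 := l1 _ _ _ _ hY qX
  have e1 : (0 : ℤ) + (((1 * i : ℕ) : ℤ) + ((j : ℤ) + 1)) = ((i + j : ℕ) : ℤ) + 1 := by push_cast; ring
  have e2 : (0 : ℤ) + ((i : ℤ) + 1 + ((1 * j : ℕ) : ℤ)) = ((i + j : ℕ) : ℤ) + 1 := by push_cast; ring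
  have e3 : (i : ℤ) + 1 + ((1 * j : ℕ) : ℤ) = ((i + j : ℕ) : ℤ) + 1 := by push_cast; ring
  have e4 : ((1 * i : ℕ) : ℤ) + ((j : ℤ) + 1) = ((i + j : ℕ) : ℤ) + 1 := by push_cast; ring
  rw [e1] at a1
  rw [e2] at a2
  rw [e3] at a3
  rw [e4] at a4
  have hcomm : (dX ^ j * dY ^ i : Module.End (ZMod 13) (Fn13 (13 ^ r) (13 ^ s))) = dY ^ i * dX ^ j := by
    have h1 : Commute (dX : Module.End (ZMod 13) (Fn13 (13 ^ r) (13 ^ s))) dY := lc
    exact (h1.pow_pow j i)
  have e : (pj c * lgm (i, 0, j) : Module.End (ZMod 13) (Fn13 (13 ^ r) (13 ^ s))) -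
      dX ^ j * dY ^ i * pj (c + j + 11 * i) =
      pj c * ((oB - 1) ^ i * ((oA - 1) ^ j - dX ^ j)) + pj c * (((oB - 1) ^ i - dY ^ i) * dX ^ j) +
        (pj c * dY ^ i - dY ^ i * pj (c + 11 * i)) * dX ^ j +
        dY ^ i * (pj (c + 11 * i) * dX ^ j - dX ^ j * pj (c + 11 * i + j)) := by
    have e5 : c + j + 11 * i = c + 11 * i + j := by ring
    rw [hcomm, e5]
    unfold lgm
    simp only [pow_zero, mul_one, mul_sub, sub_mul, mul_assoc]
    abel
  rw [e]
  exact l2 _ _ _ (l2 _ _ _ (l2 _ _ _ a1 a2) a3) a4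

private theorem lg_cast {S : ℤ} (h : (13 : ℤ) ∣ S) : (S : ZMod 13) = 0 :=
  (ZMod.intCast_zmod_eq_zero_iff_dvd S 13).2 (by exact_mod_cast h)

end ops

theorem hLdg (hl : S13Low0) (hn : S13Nfa) (he : S13Exp) (hj : S13Pj) : S13Ldg := by
  intro r s L n c hn8 hL hv
  have hl' := hl r s
  obtain ⟨l1, l2, l3, l4, l5, l6, l7, l8, lc, _⟩ := hl'
  have hn' := hn r s
  obtain ⟨n1, n2, n3, n4, n5, n6, n7, n8, n9, n10⟩ := hn'
  have hj' := hj r s
  obtain ⟨p1, p2, p3, p4, p5, p6, p7, p8⟩ := hj'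
  have h0 : Lw ((opL L : Module.End (ZMod 13) (Fn13 (13 ^ r) (13 ^ s))) - ∑ w : Fin 12, ∑ t ∈ M15,
      ((cS L w t.1 t.2.1 t.2.2 : ℤ) : ZMod 13) • (oW w * lgm t)) 15 := by
    have h := he r s L hL
    have e : (∑ w : Fin 12, ∑ t ∈ M15, ((cS L w t.1 t.2.1 t.2.2 : ℤ) : ZMod 13) •
        (oW w * (oB - 1) ^ t.1 * (oD - 1) ^ t.2.1 * (oA - 1) ^ t.2.2) :
        Module.End (ZMod 13) (Fn13 (13 ^ r) (13 ^ s))) = ∑ w : Fin 12, ∑ t ∈ M15,
        ((cS L w t.1 t.2.1 t.2.2 : ℤ) : ZMod 13) • (oW w * lgm t) :=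
      Finset.sum_congr rfl fun w _ => Finset.sum_congr rfl fun t _ => by rw [lg_mon]
    rw [← e]
    convert h using 2
  set S0 : Module.End (ZMod 13) (Fn13 (13 ^ r) (13 ^ s)) := ∑ w : Fin 12, ∑ t ∈ M15,
      ((cS L w t.1 t.2.1 t.2.2 : ℤ) : ZMod 13) • (oW w * lgm t) with hS0
  have hcz : ∀ (w : Fin 12), ∀ t ∈ M15, t.1 + 12 * t.2.1 + t.2.2 < n →
      ((cS L w t.1 t.2.1 t.2.2 : ℤ) : ZMod 13) = 0 := fun w t ht hw => lg_cast (hv w t ht hw)
  constructor
  · -- the list lowers by n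
    have h1 := l4 _ _ (n : ℤ) (by exact_mod_cast (by omega : n ≤ 15)) h0
    have h2 : Lw S0 (n : ℤ) := by
      rw [hS0]
      refine lg_lw_sum hl _ _ _ fun w _ => lg_lw_sum hl _ _ _ fun t ht => ?_
      by_cases hw : t.1 + 12 * t.2.1 + t.2.2 < n
      · rw [hcz w t ht hw, lg_zero_smul]
        exact lg_lw_zero _
      · refine l3 _ _ _ (l4 _ _ (n : ℤ) ?_ (l1 _ _ _ _ (n1 w) (lg_lw_lgm hl hn t)))
        rw [zero_add]
        exact_mod_cast not_lt.1 hw
    have h3 := l2 _ _ _ h1 h2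
    rwa [sub_add_cancel] at h3
  · intro hk
    -- the coefficients of the projected list
    set C : ℕ × ℕ × ℕ → ZMod 13 := fun t => ((cC L c t.1 t.2.1 t.2.2 : ℤ) : ZMod 13) with hC
    have hCe : ∀ t, C t = ∑ w : Fin 12, (((om12 w) ^ c : ℤ) : ZMod 13) *
        ((cS L w t.1 t.2.1 t.2.2 : ℤ) : ZMod 13) := by
      intro t
      rw [hC]
      unfold cC
      push_cast
      rfl
    have s1 : Lw (pj c * (opL L - S0) : Module.End (ZMod 13) (Fn13 (13 ^ r) (13 ^ s))) ((n : ℤ) + 1) := by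
      refine l4 _ _ _ ?_ (l1 _ _ _ _ (p1 c) h0)
      have : (n : ℤ) ≤ 14 := by exact_mod_cast hn8
      linarith
    have s2 : Lw (pj c * S0 - ∑ t ∈ M15, C t • (pj c * lgm t) :
        Module.End (ZMod 13) (Fn13 (13 ^ r) (13 ^ s))) ((n : ℤ) + 1) := by
      have e : (pj c * S0 - ∑ t ∈ M15, C t • (pj c * lgm t) :
          Module.End (ZMod 13) (Fn13 (13 ^ r) (13 ^ s))) = ∑ w : Fin 12, ∑ t ∈ M15,
          ((cS L w t.1 t.2.1 t.2.2 : ℤ) : ZMod 13) •
            ((pj c * oW w - (((om12 w) ^ c : ℤ) : ZMod 13) • pj c) * lgm t) := by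
        have e1 : (pj c * S0 : Module.End (ZMod 13) (Fn13 (13 ^ r) (13 ^ s))) = ∑ w : Fin 12, ∑ t ∈ M15,
            ((cS L w t.1 t.2.1 t.2.2 : ℤ) : ZMod 13) • (pj c * oW w * lgm t) := by
          rw [hS0, Finset.mul_sum]
          refine Finset.sum_congr rfl fun w _ => ?_
          rw [Finset.mul_sum]
          refine Finset.sum_congr rfl fun t _ => ?_
          rw [lg_mul_smul_comm, mul_assoc]
        have e2 : (∑ t ∈ M15, C t • (pj c * lgm t) : Module.End (ZMod 13) (Fn13 (13 ^ r) (13 ^ s))) =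
            ∑ w : Fin 12, ∑ t ∈ M15, ((cS L w t.1 t.2.1 t.2.2 : ℤ) : ZMod 13) •
              ((((om12 w) ^ c : ℤ) : ZMod 13) • (pj c * lgm t)) := by
          rw [Finset.sum_comm]
          refine Finset.sum_congr rfl fun t _ => ?_
          rw [hCe t, lg_sum_smul]
          refine Finset.sum_congr rfl fun w _ => ?_
          rw [mul_comm, lg_mul_smul]
        rw [e1, e2, ← Finset.sum_sub_distrib]
        refine Finset.sum_congr rfl fun w _ => ?_
        rw [← Finset.sum_sub_distrib]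
        refine Finset.sum_congr rfl fun t _ => ?_
        rw [sub_mul, lg_smul_sub, lg_smul_mul]
      rw [e]
      refine lg_lw_sum hl _ _ _ fun w _ => lg_lw_sum hl _ _ _ fun t ht => l3 _ _ _ ?_
      refine l4 _ _ _ ?_ (l1 _ _ _ _ (p4 c w).1 (lg_lw_lgm hl hn t))
      have h1 : (n : ℤ) ≤ 14 := by exact_mod_cast hn8
      have h2 : (0 : ℤ) ≤ ((t.1 + 12 * t.2.1 + t.2.2 : ℕ) : ℤ) := Int.natCast_nonneg _
      linarith
    -- the terms of weight n
    set g : ℕ → ℕ × ℕ × ℕ := fun i => (i, 0, n - i) with hg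
    have gin : Set.InjOn g (Finset.range (n + 1) : Set ℕ) := by
      intro a _ b _ hab
      exact congrArg Prod.fst hab
    have hsub : (Finset.range (n + 1)).image g ⊆ M15 := by
      intro t ht
      rw [Finset.mem_image] at ht
      obtain ⟨i, hi, rfl⟩ := ht
      rw [Finset.mem_range] at hi
      unfold M15
      rw [Finset.mem_filter, Finset.mem_product, Finset.mem_product, Finset.mem_range,
        Finset.mem_range, Finset.mem_range]
      simp only [hg]
      omega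
    have s3 : Lw (∑ t ∈ M15, C t • (pj c * lgm t) - ∑ i ∈ Finset.range (n + 1),
        ((cC L c i 0 (n - i) : ℤ) : ZMod 13) • (dX ^ (n - i) * dY ^ i * pj (c + (n - i) + 11 * i)) :
        Module.End (ZMod 13) (Fn13 (13 ^ r) (13 ^ s))) ((n : ℤ) + 1) := by
      have e1 : (∑ t ∈ M15, C t • (pj c * lgm t) : Module.End (ZMod 13) (Fn13 (13 ^ r) (13 ^ s))) =
          ∑ t ∈ M15 \ (Finset.range (n + 1)).image g, C t • (pj c * lgm t) +
            ∑ i ∈ Finset.range (n + 1), C (g i) • (pj c * lgm (g i)) := by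
        rw [← Finset.sum_sdiff hsub, Finset.sum_image gin]
      have e2 : (∑ t ∈ M15, C t • (pj c * lgm t) - ∑ i ∈ Finset.range (n + 1),
          ((cC L c i 0 (n - i) : ℤ) : ZMod 13) • (dX ^ (n - i) * dY ^ i * pj (c + (n - i) + 11 * i)) :
          Module.End (ZMod 13) (Fn13 (13 ^ r) (13 ^ s))) =
          ∑ t ∈ M15 \ (Finset.range (n + 1)).image g, C t • (pj c * lgm t) +
            ∑ i ∈ Finset.range (n + 1), ((cC L c i 0 (n - i) : ℤ) : ZMod 13) •
              (pj c * lgm (i, 0, n - i) - dX ^ (n - i) * dY ^ i * pj (c + (n - i) + 11 * i)) := by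
        rw [e1, add_sub_assoc, ← Finset.sum_sub_distrib]
        refine congrArg (HAdd.hAdd _) ?_
        refine Finset.sum_congr rfl fun i _ => ?_
        exact (lg_smul_sub _ _ _).symm
      rw [e2]
      refine l2 _ _ _ ?_ ?_
      · refine lg_lw_sum hl _ _ _ fun t ht => ?_
        rw [Finset.mem_sdiff] at ht
        obtain ⟨ht1, ht2⟩ := ht
        by_cases hw : t.1 + 12 * t.2.1 + t.2.2 ≤ n
        · have hz : C t = 0 := by
            rcases lt_or_eq_of_le hw with hw | hw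
            · rw [hCe t]
              refine Finset.sum_eq_zero fun w _ => ?_
              rw [hcz w t ht1 hw, mul_zero]
            · by_cases hk0 : t.2.1 = 0
              · exfalso
                apply ht2
                rw [Finset.mem_image]
                refine ⟨t.1, ?_, ?_⟩
                · rw [Finset.mem_range]; omega
                · simp only [hg]
                  ext
                  · rfl
                  · exact hk0.symm
                  · show n - t.1 = t.2.2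
                    omega
              · exact lg_cast (hk t ht1 hw hk0)
          rw [hz, lg_zero_smul]
          exact lg_lw_zero _
        · refine l3 _ _ _ (l4 _ _ _ ?_ (l1 _ _ _ _ (p1 c) (lg_lw_lgm hl hn t)))
          rw [zero_add]
          have : n + 1 ≤ t.1 + 12 * t.2.1 + t.2.2 := by omega
          exact_mod_cast this
      · refine lg_lw_sum hl _ _ _ fun i hi => l3 _ _ _ ?_
        have h1 := lg_top (r := r) (s := s) hl hn hj c i (n - i)
        have h2 : i + (n - i) = n := by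
          rw [Finset.mem_range] at hi
          omega
        rw [h2] at h1
        exact h1
    have hfin := l2 _ _ _ (l2 _ _ _ s1 s2) s3
    have e : (pj c * (opL L - S0) + (pj c * S0 - ∑ t ∈ M15, C t • (pj c * lgm t)) +
        (∑ t ∈ M15, C t • (pj c * lgm t) - ∑ i ∈ Finset.range (n + 1),
        ((cC L c i 0 (n - i) : ℤ) : ZMod 13) • (dX ^ (n - i) * dY ^ i * pj (c + (n - i) + 11 * i))) :
        Module.End (ZMod 13) (Fn13 (13 ^ r) (13 ^ s))) = pj c * opL L - ∑ i ∈ Finset.range (n + 1),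
        ((cC L c i 0 (n - i) : ℤ) : ZMod 13) • (dX ^ (n - i) * dY ^ i * pj (c + (n - i) + 11 * i)) := by
      rw [mul_sub]
      abel
    rw [e] at hfin
    exact hfin

end Pool.Agent.Helper10.P13
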