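import Pool.Agent.Helper10.P13.StPj

/-!
# Project P13 (levels `13^n`): leading form of one list

The analogue of `cC`, `S7Ldg` of `Pool/Agent/Helper4/S7/{StD2,StD3}.lean`.
-/

set_option autoImplicit false

namespace Pool.Agent.Helper10.P13

open Pool.Agent.Helper84.P13

/-- The coefficient of `pj c * (oB - 1)^i * (oD - 1)^k * (oA - 1)^j` in `pj c` times the expansion of a list. -/
def cC (L : List Tm) (c i k j : ℕ) : ℤ := ∑ w : Fin 12, (om12 w) ^ c * cS L w i k j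

/-- LDG (from LOW0, NFA, EXP, PJ). One list `L` whose coefficients of weight less than `n ≤ 14` vanish modulo 13. `S7Ldg` with `13` in place of `7`: `opL L` lowers by `n`, and `pj c * opL L` is the form `∑_i cC L c i 0 (n-i) dX^(n-i) dY^i` after `pj (c + (n - i) + 11 i)`, modulo operators
which lower by `n + 1`, if the coefficients of weight `n` with `k ≠ 0` vanish. -/
def S13Ldg : Prop := ∀ (r s : ℕ) (L : List Tm) (n c : ℕ), n ≤ 14 → (∀ t ∈ L, Gd t) →
  (∀ w : Fin 12, ∀ t ∈ M15, t.1 + 12 * t.2.1 + t.2.2 < n → (13 : ℤ) ∣ cS L w t.1 t.2.1 t.2.2) →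
  Lw (opL L : Module.End (ZMod 13) (Fn13 (13 ^ r) (13 ^ s))) n ∧
  ((∀ t ∈ M15, t.1 + 12 * t.2.1 + t.2.2 = n → t.2.1 ≠ 0 → (13 : ℤ) ∣ cC L c t.1 t.2.1 t.2.2) →
    Lw ((pj c * opL L : Module.End (ZMod 13) (Fn13 (13 ^ r) (13 ^ s))) - ∑ i ∈ Finset.range (n + 1),
      ((cC L c i 0 (n - i) : ℤ) : ZMod 13) •
        (dX ^ (n - i) * dY ^ i * pj (c + (n - i) + 11 * i) : Module.End (ZMod 13) (Fn13 (13 ^ r) (13 ^ s)))) ((n : ℤ) + 1))

end Pool.Agent.Helper10.P13
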