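import Pool.Agent.Helper84.P13.StD1

/-!
# Project P13 (levels `13^n`): class projectors

The analogue of `pj`, `S7Pj` of `Pool/Agent/Helper4/S7/StD2.lean`; classes modulo `12` (class of `x^i y^j`: `i - j`).
-/

set_option autoImplicit false

namespace Pool.Agent.Helper10.P13

open Pool.Agent.Helper84.P13

/-- The projector to the torus class `c`: `-∑_w om_w^(11c) oW w`. -/
def pj (c : ℕ) {q q' : ℕ} : Module.End (ZMod 13) (Fn13 q q') :=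
  -∑ w : Fin 12, (((om12 w) ^ (11 * c) : ℤ) : ZMod 13) • oW w

/-- PJ (from TRM, LOW0, NFA, NF, BB). Rules for the projectors; `S7Pj` with `13` in place of `7`. -/
def S13Pj : Prop := ∀ (r s : ℕ),
  (∀ c : ℕ, Lw (pj c : Module.End (ZMod 13) (Fn13 (13 ^ r) (13 ^ s))) 0) ∧
  (∑ c ∈ Finset.range 12, pj c : Module.End (ZMod 13) (Fn13 (13 ^ r) (13 ^ s))) = 1 ∧
  (∀ c : ℕ, (pj (c + 12) : Module.End (ZMod 13) (Fn13 (13 ^ r) (13 ^ s))) = pj c) ∧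
  (∀ (c : ℕ) (w : Fin 12),
    Lw (pj c * oW w - (((om12 w) ^ c : ℤ) : ZMod 13) • pj c : Module.End (ZMod 13) (Fn13 (13 ^ r) (13 ^ s))) 15 ∧
    Lw (oW w * pj c - (((om12 w) ^ c : ℤ) : ZMod 13) • pj c : Module.End (ZMod 13) (Fn13 (13 ^ r) (13 ^ s))) 15) ∧
  (∀ c c' : ℕ, c < 12 → c' < 12 → Lw (pj c * pj c' - (if c = c' then pj c else 0) :
    Module.End (ZMod 13) (Fn13 (13 ^ r) (13 ^ s))) 15) ∧
  (∀ c : ℕ, Lw (pj c * dX - dX * pj (c + 1) : Module.End (ZMod 13) (Fn13 (13 ^ r) (13 ^ s))) 2 ∧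
    Lw (pj c * dY - dY * pj (c + 11) : Module.End (ZMod 13) (Fn13 (13 ^ r) (13 ^ s))) 2) ∧
  (∀ F : Fn13 (13 ^ r) (13 ^ s), F ∈ Wd13 0 → pj 0 F = F) ∧
  (∀ c al be : ℕ, al < 13 ^ r → be < 13 ^ s →
    pj c (bb13 al be : Fn13 (13 ^ r) (13 ^ s)) - (if ((al : ℤ) - be - c) % 12 = 0 then bb13 al be else 0) ∈
      Wd13 ((al : ℤ) + be - 1))

end Pool.Agent.Helper10.P13
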